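import Pool.Agent.N798.W.Stm
import Pool.Agent.N75.HS.NP

/-!
Project HW (helper798), step GP: the sequence `p_(m+1) - (m+1)` (helper189).
-/

set_option autoImplicit false

namespace Pool.Agent.N189.HW

open Pool.Agent.N798.HW
open Pool.Agent.N798.HS (Sq)

lemma step (m : ℕ) (hm : 1 ≤ m) : Nat.nth Nat.Prime m + 2 ≤ Nat.nth Nat.Prime (m + 1) := by
  have h3 : 3 ≤ Nat.nth Nat.Prime m := by
    have := Nat.add_two_le_nth_prime m
    omega
  have hlt : Nat.nth Nat.Prime m < Nat.nth Nat.Prime (m + 1) :=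
    Nat.nth_strictMono Nat.infinite_setOfPred_prime (Nat.lt_succ_self m)
  have o1 := (Nat.prime_nth_prime m).eq_two_or_odd
  have o2 := (Nat.prime_nth_prime (m + 1)).eq_two_or_odd
  omega

theorem gp : S_GP := by
  obtain ⟨_, _, C, n0, hC⟩ := Pool.Agent.N75.HS.np
  refine ⟨?_, ?_, C + 1, max (max n0 2) ⌈Real.exp (2 ^ (C + 1))⌉₊, ?_⟩
  · intro m n hm hmn
    induction n, (Nat.succ_le_of_lt hmn) using Nat.le_induction with
    | base =>
      show Nat.nth Nat.Prime m - (m + 1) < Nat.nth Nat.Prime (m + 1) - (m + 1 + 1)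
      have h1 := step m hm
      have h2 := Nat.add_two_le_nth_prime m
      omega
    | succ n hn ih =>
      have hmn' : m < n := hn
      have h0 := ih hmn'
      have h1 := step n (by omega)
      have h2 := Nat.add_two_le_nth_prime n
      show Nat.nth Nat.Prime m - (m + 1) < Nat.nth Nat.Prime (n + 1) - (n + 1 + 1)
      have h3 : Nat.nth Nat.Prime m - (m + 1) < Nat.nth Nat.Prime n - (n + 1) := h0
      omega
  · show 1 ≤ Nat.nth Nat.Prime 1 - (1 + 1)
    rw [Nat.nth_prime_one_eq_three]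
  · intro n hn
    have hn0 : n0 ≤ n := ((le_max_left _ _).trans (le_max_left _ _)).trans hn
    have hn2 : 2 ≤ n := ((le_max_right _ _).trans (le_max_left _ _)).trans hn
    have hn3 : Real.exp (2 ^ (C + 1)) ≤ n :=
      (Nat.le_ceil _).trans (by exact_mod_cast (le_max_right _ _).trans hn)
    have hnr : (2 : ℝ) ≤ n := by exact_mod_cast hn2
    have hnp : (0 : ℝ) < n := by linarith
    have hL : (2 : ℝ) ^ (C + 1) ≤ Real.log n := (Real.le_log_iff_exp_le hnp).2 hn3
    have hL0 : 0 ≤ Real.log n := le_trans (by positivity) hL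
    have h1 := hC (n + 1) (by omega)
    have h1' : (Nat.nth Nat.Prime n : ℝ) ≤ ((n + 1 : ℕ) : ℝ) * Real.log ((n + 1 : ℕ) : ℝ) ^ C := h1
    push_cast at h1'
    have h2 : Real.log ((n : ℝ) + 1) ≤ 2 * Real.log n := by
      have h3 : Real.log ((n : ℝ) + 1) ≤ Real.log ((n : ℝ) ^ 2) :=
        Real.log_le_log (by linarith) (by nlinarith)
      rw [Real.log_pow] at h3
      exact_mod_cast h3
    have h4 : 0 ≤ Real.log ((n : ℝ) + 1) := Real.log_nonneg (by linarith)
    have h5 : ((Nat.nth Nat.Prime n - (n + 1) : ℕ) : ℝ) ≤ (Nat.nth Nat.Prime n : ℝ) := by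
      exact_mod_cast Nat.sub_le _ _
    show ((Nat.nth Nat.Prime n - (n + 1) : ℕ) : ℝ) ≤ n * Real.log n ^ (C + 1)
    calc ((Nat.nth Nat.Prime n - (n + 1) : ℕ) : ℝ) ≤ (Nat.nth Nat.Prime n : ℝ) := h5
      _ ≤ ((n : ℝ) + 1) * Real.log ((n : ℝ) + 1) ^ C := h1'
      _ ≤ (2 * n) * (2 * Real.log n) ^ C := by
          refine mul_le_mul (by linarith) (pow_le_pow_left₀ h4 h2 C) (by positivity) (by positivity)
      _ = n * (2 ^ (C + 1) * Real.log n ^ C) := by rw [mul_pow]; ring
      _ ≤ n * (Real.log n * Real.log n ^ C) := by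
          refine mul_le_mul_of_nonneg_left ?_ hnp.le
          exact mul_le_mul_of_nonneg_right hL (by positivity)
      _ = n * Real.log n ^ (C + 1) := by ring

end Pool.Agent.N189.HW
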